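import Mathlib

set_option autoImplicit false

/-!
# The algebraic inequality for four nodes
-/

namespace Pool.Agent.H68.B4

/-- the coefficient of `h_i` -/
noncomputable def Ps (a d q1 q2 q3 e1 e2 e3 : ℝ) : ℝ :=
  (e1 ^ 2 * (3 * a + d + q1) + e2 ^ 2 * (3 * a + d + q2) + e3 ^ 2 * (3 * a + d + q3)) / 2 +
    (a - d) * d ^ 2 - d * (q1 * e1 + q2 * e2 + q3 * e3)

theorem Ps_nonneg {a d q1 q2 q3 e1 e2 e3 : ℝ}
    (h1 : 0 ≤ q1) (h1' : q1 ≤ 3 * a) (h2 : 0 ≤ q2) (h2' : q2 ≤ 3 * a) (h3 : 0 ≤ q3)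
    (h3' : q3 ≤ 3 * a) (hq : q1 + q2 + q3 = 3 * a + d) (he : e1 + e2 + e3 = -d) :
    0 ≤ Ps a d q1 q2 q3 e1 e2 e3 := by
  obtain ⟨r1, hr1⟩ : ∃ r1, r1 = 3 * a - q1 := ⟨_, rfl⟩
  obtain ⟨r2, hr2⟩ : ∃ r2, r2 = 3 * a - q2 := ⟨_, rfl⟩
  obtain ⟨r3, hr3⟩ : ∃ r3, r3 = 3 * a - q3 := ⟨_, rfl⟩
  obtain ⟨f1, hf1⟩ : ∃ f1, f1 = e1 + d / 3 := ⟨_, rfl⟩
  obtain ⟨f2, hf2⟩ : ∃ f2, f2 = e2 + d / 3 := ⟨_, rfl⟩
  obtain ⟨D, hD⟩ : ∃ D, D = 6 * a - d := ⟨_, rfl⟩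
  have ha : 0 ≤ a := by linarith
  have hr1p : 0 ≤ r1 := by linarith
  have hr2p : 0 ≤ r2 := by linarith
  have hr3p : 0 ≤ r3 := by linarith
  have hr1q : r1 ≤ 3 * a := by linarith
  have hr2q : r2 ≤ 3 * a := by linarith
  have hr3q : r3 ≤ 3 * a := by linarith
  have hDr : D = r1 + r2 + r3 := by linarith
  have hD0 : 0 ≤ D := by linarith
  have hD9 : 0 ≤ 9 * a - D := by linarith
  have e3' : e3 = -d - e1 - e2 := by linarith
  have q3' : q3 = 3 * a + d - q1 - q2 := by linarith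
  obtain ⟨f3, hf3⟩ : ∃ f3, f3 = -f1 - f2 := ⟨_, rfl⟩
  obtain ⟨S, hS⟩ : ∃ S, S = r1 * f1 + r2 * f2 + r3 * f3 := ⟨_, rfl⟩
  obtain ⟨F, hF⟩ : ∃ F, F = f1 ^ 2 + f2 ^ 2 + f3 ^ 2 := ⟨_, rfl⟩
  obtain ⟨V, hV⟩ : ∃ V, V = r1 ^ 2 + r2 ^ 2 + r3 ^ 2 - D ^ 2 / 3 := ⟨_, rfl⟩
  have hF0 : 0 ≤ F := by rw [hF]; positivity
  have hid : Ps a d q1 q2 q3 e1 e2 e3 = 4 / 9 * d ^ 2 * D +
      ((6 * a + d - r1) * f1 ^ 2 + (6 * a + d - r2) * f2 ^ 2 + (6 * a + d - r3) * f3 ^ 2) / 2 +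
      4 / 3 * d * S := by
    rw [hS, hD, hf3, hf1, hf2, hr1, hr2, hr3, q3', e3']
    unfold Ps
    ring
  have hV1 : V ≤ D * (9 * a - D) / 3 := by
    have k1 : r1 ^ 2 ≤ 3 * a * r1 := by
      rw [sq]; exact mul_le_mul_of_nonneg_right hr1q hr1p
    have k2 : r2 ^ 2 ≤ 3 * a * r2 := by
      rw [sq]; exact mul_le_mul_of_nonneg_right hr2q hr2p
    have k3 : r3 ^ 2 ≤ 3 * a * r3 := by
      rw [sq]; exact mul_le_mul_of_nonneg_right hr3q hr3p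
    have h : D * (9 * a - D) / 3 = 3 * a * r1 + 3 * a * r2 + 3 * a * r3 - D ^ 2 / 3 := by
      rw [hDr]; ring
    rw [h, hV]
    linarith
  have hCS : S ^ 2 ≤ V * F := by
    have h : V * F - S ^ 2 = ((r1 - D / 3) * f2 - (r2 - D / 3) * f1) ^ 2 +
        ((r1 - D / 3) * f3 - (r3 - D / 3) * f1) ^ 2 +
        ((r2 - D / 3) * f3 - (r3 - D / 3) * f2) ^ 2 := by
      rw [hV, hS, hF, hDr, hf3]
      ring
    have h2 : 0 ≤ V * F - S ^ 2 := by rw [h]; positivity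
    linarith
  have hQ : (9 * a - D) * F ≤ (6 * a + d - r1) * f1 ^ 2 + (6 * a + d - r2) * f2 ^ 2 +
      (6 * a + d - r3) * f3 ^ 2 := by
    have k1 : 9 * a - D ≤ 6 * a + d - r1 := by linarith
    have k2 : 9 * a - D ≤ 6 * a + d - r2 := by linarith
    have k3 : 9 * a - D ≤ 6 * a + d - r3 := by linarith
    have m1 := mul_le_mul_of_nonneg_right k1 (sq_nonneg f1)
    have m2 := mul_le_mul_of_nonneg_right k2 (sq_nonneg f2)
    have m3 := mul_le_mul_of_nonneg_right k3 (sq_nonneg f3)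
    rw [hF, mul_add, mul_add]
    linarith
  rcases hD0.eq_or_lt with h0 | h0
  · have hr10 : r1 = 0 := by linarith
    have hr20 : r2 = 0 := by linarith
    have hr30 : r3 = 0 := by linarith
    rw [hid, hS, hr10, hr20, hr30, ← h0]
    have this : 0 ≤ 6 * a + d := by linarith
    have k := mul_nonneg this (sq_nonneg f1)
    have k' := mul_nonneg this (sq_nonneg f2)
    have k'' := mul_nonneg this (sq_nonneg f3)
    have kk : 4 / 9 * d ^ 2 * 0 + ((6 * a + d - 0) * f1 ^ 2 + (6 * a + d - 0) * f2 ^ 2 +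
        (6 * a + d - 0) * f3 ^ 2) / 2 + 4 / 3 * d * (0 * f1 + 0 * f2 + 0 * f3) =
        ((6 * a + d) * f1 ^ 2 + (6 * a + d) * f2 ^ 2 + (6 * a + d) * f3 ^ 2) / 2 := by ring
    rw [kk]
    linarith
  · have hS2 : S ^ 2 ≤ D * (9 * a - D) / 3 * F := hCS.trans (mul_le_mul_of_nonneg_right hV1 hF0)
    have hk : 0 ≤ D * Ps a d q1 q2 q3 e1 e2 e3 := by
      have h1 : D * Ps a d q1 q2 q3 e1 e2 e3 = 4 / 9 * (d * D + 3 / 2 * S) ^ 2 - S ^ 2 + D / 2 *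
          ((6 * a + d - r1) * f1 ^ 2 + (6 * a + d - r2) * f2 ^ 2 + (6 * a + d - r3) * f3 ^ 2) := by
        rw [hid]; ring
      have h2 : D / 2 * ((9 * a - D) * F) ≤ D / 2 * ((6 * a + d - r1) * f1 ^ 2 +
          (6 * a + d - r2) * f2 ^ 2 + (6 * a + d - r3) * f3 ^ 2) :=
        mul_le_mul_of_nonneg_left hQ (by linarith)
      have h3 : 0 ≤ D * (9 * a - D) * F := mul_nonneg (mul_nonneg hD0 hD9) hF0
      have h4 := sq_nonneg (d * D + 3 / 2 * S)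
      have h5 : D / 2 * ((9 * a - D) * F) = D * (9 * a - D) * F / 2 := by ring
      have h6 : D * (9 * a - D) / 3 * F = D * (9 * a - D) * F / 3 := by ring
      rw [h1]
      rw [h5] at h2
      rw [h6] at hS2
      linarith
    exact nonneg_of_mul_nonneg_right hk h0

end Pool.Agent.H68.B4
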