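import Pool.Agent.H78.Bass.Final

set_option autoImplicit false

/-!
# Four nodes: the two expectations that decide
-/

namespace Pool.Agent.H68.B4

open Pool.Agent.H78.Bass

theorem DD_ge_two {p q a : ℝ} {w : Fin 4 → Fin 4 → ℝ} (hw : IsHomogeneous q w)
    (ha : 3 * a = q) {k : ℕ} (hk : 2 ≤ k) (t : ℝ) : DD p a w k t = 0 := by
  unfold DD ex
  refine Finset.sum_eq_zero fun X _ => ?_
  have hc : (Xᶜ).card ≤ 4 := by
    have := Finset.card_le_univ (Xᶜ)
    simpa using this
  have h0 : Phi a w k Xᶜ = 0 := by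
    unfold Phi
    rcases Nat.lt_or_ge (Xᶜ).card 4 with h | h
    · rw [Nat.choose_eq_zero_of_lt (by omega)]
      simp
    · have hu : Xᶜ = Finset.univ := by
        apply (Finset.card_eq_iff_eq_univ _).1
        rw [Fintype.card_fin]
        omega
      rw [hu, exc_univ hw.sum (by push_cast; linarith), mul_zero]
  change _ * Phi a w k Xᶜ = 0
  rw [h0, mul_zero]

theorem level_le_four {p q : ℝ} (hq : 0 < q) {w : Fin 4 → Fin 4 → ℝ}
    (hw : IsHomogeneous q w)
    (h0 : ∀ t, 0 ≤ t → 0 ≤ DD p (q / 3) w 0 t) (h1 : ∀ t, 0 ≤ t → 0 ≤ DD p (q / 3) w 1 t)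
    {t : ℝ} (ht : 0 ≤ t) :
    level (fun _ => p) w t ≤ level (fun _ : Fin 4 => p) (completeW q) t := by
  have ha0 : 0 ≤ q / 3 := by positivity
  have ha : q / (((4 : ℕ) : ℝ) - 1) = q / 3 := by norm_num
  have hc : ∀ Z : Finset (Fin 4), exc (q / 3) (completeW q : Fin 4 → Fin 4 → ℝ) Z = 0 := by
    intro Z
    have := complete_exc (M := 4) q Z
    rwa [ha] at this
  rw [level_eq (by omega), level_eq (by omega)]
  have h := AA_compare (p := p) ha0 hw
    (fun k t ht => by
      rcases k with _ | _ | k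
      · exact h0 t ht
      · exact h1 t ht
      · exact (DD_ge_two hw (by ring) (by omega) t).ge)
    (complete_hom (by omega) hq) hc 0 ht
  have := div_le_div_of_nonneg_right h (show (0 : ℝ) ≤ ((4 : ℕ) : ℝ) by norm_num)
  linarith

theorem level_lt_four {p q : ℝ} (hq : 0 < q) {w : Fin 4 → Fin 4 → ℝ}
    (hw : IsHomogeneous q w)
    (h0 : ∀ t, 0 ≤ t → 0 ≤ DD p (q / 3) w 0 t) (h1 : ∀ t, 0 ≤ t → 0 ≤ DD p (q / 3) w 1 t)
    (h2 : ∀ t, 0 < t → 0 < DD p (q / 3) w 0 t)
    {t : ℝ} (ht : 0 < t) :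
    level (fun _ => p) w t < level (fun _ : Fin 4 => p) (completeW q) t := by
  have ha0 : 0 ≤ q / 3 := by positivity
  have ha : q / (((4 : ℕ) : ℝ) - 1) = q / 3 := by norm_num
  have hc : ∀ Z : Finset (Fin 4), exc (q / 3) (completeW q : Fin 4 → Fin 4 → ℝ) Z = 0 := by
    intro Z
    have := complete_exc (M := 4) q Z
    rwa [ha] at this
  have hDn : ∀ k s, 0 ≤ s → 0 ≤ DD p (q / 3) w k s := fun k s hs => by
    rcases k with _ | _ | k
    · exact h0 s hs
    · exact h1 s hs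
    · exact (DD_ge_two hw (by ring) (by omega) s).ge
  have hch := complete_hom (M := 4) (by omega) hq
  have hA : 0 < AA p w 0 t - AA p (completeW q : Fin 4 → Fin 4 → ℝ) 0 t := by
    refine compare_strict (f := fun s => AA p w 0 s - AA p (completeW q : Fin 4 → Fin 4 → ℝ) 0 s)
      (c := (((0 : ℕ) : ℝ) + 1) * (p + q) - (((0 : ℕ) : ℝ) + 1) * ((0 : ℕ) : ℝ) * (q / 3))
      (fun s => (AA_deriv hw.diag hw.sum p (q / 3) 0 s).sub
        (AA_deriv hch.diag hch.sum p (q / 3) 0 s))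
      (fun s hs => ?_) ?_ ht
    · have g1 := AA_compare (p := p) ha0 hw hDn hch hc (0 + 1) hs.le
      have g2 := h2 s hs
      have g4 := DD_eq_zero (p := p) hc 0 s
      rw [g4]
      simp only [if_true, add_zero]
      have g6 : 0 ≤ (((0 : ℕ) : ℝ) + 2) * (((0 : ℕ) : ℝ) + 1) * (q / 3) *
          (AA p w (0 + 1) s - AA p (completeW q : Fin 4 → Fin 4 → ℝ) (0 + 1) s) := by
        have : 0 ≤ AA p w (0 + 1) s - AA p (completeW q : Fin 4 → Fin 4 → ℝ) (0 + 1) s := by
          linarith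
        positivity
      nlinarith
    · unfold AA
      rw [ex_zero, ex_zero]
      simp
  rw [level_eq (by omega), level_eq (by omega)]
  have := div_lt_div_of_pos_right (sub_pos.1 hA) (show (0 : ℝ) < ((4 : ℕ) : ℝ) by norm_num)
  linarith

end Pool.Agent.H68.B4
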