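import Pool.Agent.H78.Bass.Final

set_option autoImplicit false

/-!
# Four nodes: explicit formulas
-/

namespace Pool.Agent.H68.B4

open Pool.Agent.H78.Bass

theorem univ16 : (Finset.univ : Finset (Finset (Fin 4))) =
    {∅, {0}, {1}, {2}, {3}, {0, 1}, {0, 2}, {0, 3}, {1, 2}, {1, 3}, {2, 3}, {0, 1, 2}, {0, 1, 3},
      {0, 2, 3}, {1, 2, 3}, {0, 1, 2, 3}} := by decide

theorem ex_four (p : Fin 4 → ℝ) (w : Fin 4 → Fin 4 → ℝ) (φ : Finset (Fin 4) → ℝ) (t : ℝ) :
    ex p w φ t = law p w t ∅ * φ ∅ + (law p w t {0} * φ {0} + law p w t {1} * φ {1} +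
      law p w t {2} * φ {2} + law p w t {3} * φ {3}) + (law p w t {0, 1} * φ {0, 1} +
      law p w t {0, 2} * φ {0, 2} + law p w t {0, 3} * φ {0, 3} + law p w t {1, 2} * φ {1, 2} +
      law p w t {1, 3} * φ {1, 3} + law p w t {2, 3} * φ {2, 3}) +
      (law p w t {0, 1, 2} * φ {0, 1, 2} + law p w t {0, 1, 3} * φ {0, 1, 3} +
      law p w t {0, 2, 3} * φ {0, 2, 3} + law p w t {1, 2, 3} * φ {1, 2, 3}) +
      law p w t {0, 1, 2, 3} * φ {0, 1, 2, 3} := by
  unfold ex
  rw [univ16]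
  rw [Finset.sum_insert (by decide), Finset.sum_insert (by decide), Finset.sum_insert (by decide),
    Finset.sum_insert (by decide), Finset.sum_insert (by decide), Finset.sum_insert (by decide),
    Finset.sum_insert (by decide), Finset.sum_insert (by decide), Finset.sum_insert (by decide),
    Finset.sum_insert (by decide), Finset.sum_insert (by decide), Finset.sum_insert (by decide),
    Finset.sum_insert (by decide), Finset.sum_insert (by decide), Finset.sum_insert (by decide),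
    Finset.sum_singleton]
  ring

theorem c0 : ({0} : Finset (Fin 4))ᶜ = {1, 2, 3} := by decide
theorem c1 : ({1} : Finset (Fin 4))ᶜ = {0, 2, 3} := by decide
theorem c2 : ({2} : Finset (Fin 4))ᶜ = {0, 1, 3} := by decide
theorem c3 : ({3} : Finset (Fin 4))ᶜ = {0, 1, 2} := by decide
theorem c01 : ({0, 1} : Finset (Fin 4))ᶜ = {2, 3} := by decide
theorem c02 : ({0, 2} : Finset (Fin 4))ᶜ = {1, 3} := by decide
theorem c03 : ({0, 3} : Finset (Fin 4))ᶜ = {1, 2} := by decide
theorem c12 : ({1, 2} : Finset (Fin 4))ᶜ = {0, 3} := by decide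
theorem c13 : ({1, 3} : Finset (Fin 4))ᶜ = {0, 2} := by decide
theorem c23 : ({2, 3} : Finset (Fin 4))ᶜ = {0, 1} := by decide
theorem c012 : ({0, 1, 2} : Finset (Fin 4))ᶜ = {3} := by decide
theorem c013 : ({0, 1, 3} : Finset (Fin 4))ᶜ = {2} := by decide
theorem c023 : ({0, 2, 3} : Finset (Fin 4))ᶜ = {1} := by decide
theorem c123 : ({1, 2, 3} : Finset (Fin 4))ᶜ = {0} := by decide
theorem c0123 : ({0, 1, 2, 3} : Finset (Fin 4))ᶜ = ∅ := by decide

variable {w : Fin 4 → Fin 4 → ℝ}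

theorem exc_pair (hd : ∀ j, w j j = 0) (a : ℝ) {i j : Fin 4} (hij : i ≠ j) :
    exc a w {i, j} = w i j + w j i - 2 * a := by
  unfold exc wt
  rw [Finset.card_pair hij, Finset.sum_pair hij, Finset.sum_pair hij, Finset.sum_pair hij, hd, hd]
  push_cast
  ring

theorem exc_triple (hd : ∀ j, w j j = 0) (a : ℝ) {i j k : Fin 4} (hij : i ≠ j) (hik : i ≠ k)
    (hjk : j ≠ k) :
    exc a w {i, j, k} = w i j + w j i + w i k + w k i + w j k + w k j - 6 * a := by
  have hs : ∀ f : Fin 4 → ℝ, ∑ x ∈ ({i, j, k} : Finset (Fin 4)), f x = f i + f j + f k := by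
    intro f
    rw [Finset.sum_insert (by simp [hij, hik]), Finset.sum_pair hjk]
    ring
  have hc : ({i, j, k} : Finset (Fin 4)).card = 3 := Finset.card_eq_three.2 ⟨i, j, k, hij, hik, hjk, rfl⟩
  unfold exc wt
  rw [hs, hs, hs, hs, hc, hd, hd, hd]
  push_cast
  ring

theorem quad_pair (hd : ∀ j, w j j = 0) (a : ℝ) {i j : Fin 4} (hij : i ≠ j) :
    quad a w {i, j} = (w i j + w j i - 2 * a) ^ 2 := by
  unfold quad di dou
  rw [Finset.card_pair hij, Finset.sum_pair hij, Finset.sum_pair hij, Finset.sum_pair hij,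
    Finset.sum_pair hij, Finset.sum_pair hij, hd, hd]
  push_cast
  ring

theorem quad_triple (hd : ∀ j, w j j = 0) (a : ℝ) {i j k : Fin 4} (hij : i ≠ j) (hik : i ≠ k)
    (hjk : j ≠ k) :
    quad a w {i, j, k} =
      (w j i + w k i - 2 * a) * (w j i + w k i + w i j + w i k - 4 * a) +
      (w i j + w k j - 2 * a) * (w i j + w k j + w j i + w j k - 4 * a) +
      (w i k + w j k - 2 * a) * (w i k + w j k + w k i + w k j - 4 * a) := by
  have hs : ∀ f : Fin 4 → ℝ, ∑ x ∈ ({i, j, k} : Finset (Fin 4)), f x = f i + f j + f k := by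
    intro f
    rw [Finset.sum_insert (by simp [hij, hik]), Finset.sum_pair hjk]
    ring
  have hc : ({i, j, k} : Finset (Fin 4)).card = 3 := Finset.card_eq_three.2 ⟨i, j, k, hij, hik, hjk, rfl⟩
  unfold quad di dou
  rw [hs, hs, hs, hs, hs, hs, hs, hc, hd, hd, hd]
  push_cast
  ring

end Pool.Agent.H68.B4
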