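import Pool.Agent.H68.B4.Alg

set_option autoImplicit false

/-!
# Four nodes: the identity for the source term
-/

namespace Pool.Agent.H68.B4

/-- the source term as a combination of nonnegative terms -/
theorem identity (a p X h0 h1 h2 h3 x0 x1 x2 x3 y01 y02 y03 y12 y13 y23
    w01 w02 w03 w10 w12 w13 w20 w21 w23 w30 w31 w32 : ℝ)
    (k0 : w10 + w20 + w30 = 3 * a) (k1 : w01 + w21 + w31 = 3 * a)
    (k2 : w02 + w12 + w32 = 3 * a) (k3 : w03 + w13 + w23 = 3 * a)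
    (e0 : x0 = X - (w01 + w02 + w03 - 3 * a) * h0) (e1 : x1 = X - (w10 + w12 + w13 - 3 * a) * h1)
    (e2 : x2 = X - (w20 + w21 + w23 - 3 * a) * h2) (e3 : x3 = X - (w30 + w31 + w32 - 3 * a) * h3) :
    2 * a * (x0 * (3 * a - (w01 + w02 + w03)) + x1 * (3 * a - (w10 + w12 + w13)) +
      x2 * (3 * a - (w20 + w21 + w23)) + x3 * (3 * a - (w30 + w31 + w32))) +
    (x0 * ((w21 + w31 - 2 * a) * (w21 + w31 + w12 + w13 - 4 * a) +
        (w12 + w32 - 2 * a) * (w12 + w32 + w21 + w23 - 4 * a) +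
        (w13 + w23 - 2 * a) * (w13 + w23 + w31 + w32 - 4 * a)) +
      x1 * ((w20 + w30 - 2 * a) * (w20 + w30 + w02 + w03 - 4 * a) +
        (w02 + w32 - 2 * a) * (w02 + w32 + w20 + w23 - 4 * a) +
        (w03 + w23 - 2 * a) * (w03 + w23 + w30 + w32 - 4 * a)) +
      x2 * ((w10 + w30 - 2 * a) * (w10 + w30 + w01 + w03 - 4 * a) +
        (w01 + w31 - 2 * a) * (w01 + w31 + w10 + w13 - 4 * a) +
        (w03 + w13 - 2 * a) * (w03 + w13 + w30 + w31 - 4 * a)) +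
      x3 * ((w10 + w20 - 2 * a) * (w10 + w20 + w01 + w02 - 4 * a) +
        (w01 + w21 - 2 * a) * (w01 + w21 + w10 + w12 - 4 * a) +
        (w02 + w12 - 2 * a) * (w02 + w12 + w20 + w21 - 4 * a))) +
    (y01 * (w23 + w32 - 2 * a) ^ 2 + y02 * (w13 + w31 - 2 * a) ^ 2 +
      y03 * (w12 + w21 - 2 * a) ^ 2 + y12 * (w03 + w30 - 2 * a) ^ 2 +
      y13 * (w02 + w20 - 2 * a) ^ 2 + y23 * (w01 + w10 - 2 * a) ^ 2) =
    (h0 * Ps a (w01 + w02 + w03 - 3 * a) w01 w02 w03 (w23 + w32 - 2 * a) (w13 + w31 - 2 * a)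
        (w12 + w21 - 2 * a) +
      h1 * Ps a (w10 + w12 + w13 - 3 * a) w10 w12 w13 (w23 + w32 - 2 * a) (w03 + w30 - 2 * a)
        (w02 + w20 - 2 * a) +
      h2 * Ps a (w20 + w21 + w23 - 3 * a) w20 w21 w23 (w13 + w31 - 2 * a) (w03 + w30 - 2 * a)
        (w01 + w10 - 2 * a) +
      h3 * Ps a (w30 + w31 + w32 - 3 * a) w30 w31 w32 (w12 + w21 - 2 * a) (w02 + w20 - 2 * a)
        (w01 + w10 - 2 * a)) +
    ((w23 + w32 - 2 * a) ^ 2 * (2 * y01 - (p + w01) * h0 - (p + w10) * h1) +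
      (w13 + w31 - 2 * a) ^ 2 * (2 * y02 - (p + w02) * h0 - (p + w20) * h2) +
      (w12 + w21 - 2 * a) ^ 2 * (2 * y03 - (p + w03) * h0 - (p + w30) * h3) +
      (w03 + w30 - 2 * a) ^ 2 * (2 * y12 - (p + w12) * h1 - (p + w21) * h2) +
      (w02 + w20 - 2 * a) ^ 2 * (2 * y13 - (p + w13) * h1 - (p + w31) * h3) +
      (w01 + w10 - 2 * a) ^ 2 * (2 * y23 - (p + w23) * h2 - (p + w32) * h3)) / 2 +
    (((w12 + w21 - 2 * a) ^ 2 + (w13 + w31 - 2 * a) ^ 2 + (w23 + w32 - 2 * a) ^ 2) *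
        (x0 + (p - 3 * a) * h0) +
      ((w02 + w20 - 2 * a) ^ 2 + (w03 + w30 - 2 * a) ^ 2 + (w23 + w32 - 2 * a) ^ 2) *
        (x1 + (p - 3 * a) * h1) +
      ((w01 + w10 - 2 * a) ^ 2 + (w03 + w30 - 2 * a) ^ 2 + (w13 + w31 - 2 * a) ^ 2) *
        (x2 + (p - 3 * a) * h2) +
      ((w01 + w10 - 2 * a) ^ 2 + (w02 + w20 - 2 * a) ^ 2 + (w12 + w21 - 2 * a) ^ 2) *
        (x3 + (p - 3 * a) * h3)) / 2 := by
  have l0 : w10 = 3 * a - w20 - w30 := by linarith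
  have l1 : w01 = 3 * a - w21 - w31 := by linarith
  have l2 : w02 = 3 * a - w12 - w32 := by linarith
  have l3 : w03 = 3 * a - w13 - w23 := by linarith
  subst e0 e1 e2 e3 l0 l1 l2 l3
  unfold Ps
  ring

end Pool.Agent.H68.B4
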