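import Pool.Agent.H68.B4.Exp

set_option autoImplicit false

/-!
# Four nodes: the functions `x_i`, `h_i`, `b_i`, `f_ij`
-/

namespace Pool.Agent.H68.B4

open Pool.Agent.H78.Bass

/-- solution of `g' = -c g + f`, `g 0 = 0` -/
noncomputable def cv (c : ℝ) (f : ℝ → ℝ) (t : ℝ) : ℝ :=
  Real.exp (-c * t) * ∫ s in (0 : ℝ)..t, Real.exp (c * s) * f s

theorem cv_deriv (c : ℝ) {f : ℝ → ℝ} (hf : Continuous f) (t : ℝ) :
    HasDerivAt (cv c f) (-c * cv c f t + f t) t := by
  have h1 : HasDerivAt (fun t : ℝ => Real.exp (-c * t)) (Real.exp (-c * t) * (-c)) t := by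
    have := ((hasDerivAt_id t).const_mul (-c)).exp
    simpa using this
  have h2 : HasDerivAt (fun t : ℝ => ∫ s in (0 : ℝ)..t, Real.exp (c * s) * f s)
      (Real.exp (c * t) * f t) t := by
    have hc : Continuous fun s => Real.exp (c * s) * f s := by fun_prop
    exact (hc.integral_hasStrictDerivAt 0 t).hasDerivAt
  have h4 : Real.exp (-c * t) * Real.exp (c * t) = 1 := by
    rw [← Real.exp_add]
    simp
  have h3 := h1.mul h2
  refine h3.congr_deriv ?_
  unfold cv
  linear_combination (f t) * h4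

theorem cv_zero (c : ℝ) (f : ℝ → ℝ) : cv c f 0 = 0 := by
  simp [cv]

theorem eq_zero_of_ode {u : ℝ → ℝ} {c : ℝ} (hu : ∀ t, HasDerivAt u (-c * u t) t) (h0 : u 0 = 0)
    {t : ℝ} (ht : 0 ≤ t) : u t = 0 := by
  have h1 := compare (f := u) (f' := fun s => -c * u s) (c := c) hu (fun s _ => le_rfl) h0.ge ht
  have h2 := compare (f := fun s => -u s) (f' := fun s => -(-c * u s)) (c := c)
    (fun s => (hu s).neg) (fun s _ => by linarith) (by simp [h0]) ht
  linarith

section law

variable (p q : ℝ) (w : Fin 4 → Fin 4 → ℝ)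

/-- probability of no adopter -/
noncomputable def L (t : ℝ) : ℝ := law (fun _ : Fin 4 => p) w t ∅

/-- probability that `i` is the only adopter -/
noncomputable def x (i : Fin 4) (t : ℝ) : ℝ := law (fun _ : Fin 4 => p) w t {i}

/-- probability that `i`, `j` are the adopters -/
noncomputable def y (i j : Fin 4) (t : ℝ) : ℝ := law (fun _ : Fin 4 => p) w t {i, j}

/-- outgoing weight -/
noncomputable def ou (i : Fin 4) : ℝ := ∑ j, w i j

theorem L_deriv (t : ℝ) : HasDerivAt (L p w) (-(4 * p) * L p w t) t := by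
  have h := law_deriv (fun _ : Fin 4 => p) w t ∅
  have e : (∑ j ∈ (∅ : Finset (Fin 4)), law (fun _ : Fin 4 => p) w t ((∅ : Finset (Fin 4)).erase j) *
        rate (fun _ : Fin 4 => p) w ((∅ : Finset (Fin 4)).erase j) j -
        (∑ j ∈ (∅ : Finset (Fin 4))ᶜ, rate (fun _ : Fin 4 => p) w ∅ j) *
        law (fun _ : Fin 4 => p) w t ∅) = -(4 * p) * L p w t := by
    unfold L
    simp [rate]
  rw [e] at h
  exact h

variable {q w}

theorem x_deriv (hd : ∀ j, w j j = 0) (i : Fin 4) (t : ℝ) :
    HasDerivAt (x p w i) (p * L p w t - (3 * p + ou w i) * x p w i t) t := by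
  have h := law_deriv (fun _ : Fin 4 => p) w t {i}
  have hs : ∑ j ∈ ({i} : Finset (Fin 4))ᶜ, rate (fun _ : Fin 4 => p) w {i} j = 3 * p + ou w i := by
    have h1 := Finset.sum_add_sum_compl ({i} : Finset (Fin 4))
      (fun j => rate (fun _ : Fin 4 => p) w {i} j)
    have h2 : ∑ j : Fin 4, rate (fun _ : Fin 4 => p) w {i} j = 4 * p + ou w i := by
      unfold rate ou
      simp only [Finset.sum_singleton]
      rw [Finset.sum_add_distrib, Finset.sum_const, Finset.card_univ, Fintype.card_fin,
        nsmul_eq_mul]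
      norm_num
    have h3 : ∑ j ∈ ({i} : Finset (Fin 4)), rate (fun _ : Fin 4 => p) w {i} j = p := by
      unfold rate
      simp [hd]
    linarith
  rw [hs, Finset.sum_singleton, Finset.erase_singleton] at h
  have e : law (fun _ : Fin 4 => p) w t ∅ * rate (fun _ : Fin 4 => p) w ∅ i -
      (3 * p + ou w i) * law (fun _ : Fin 4 => p) w t {i} =
      p * L p w t - (3 * p + ou w i) * x p w i t := by
    unfold L x rate
    simp
    ring
  rw [e] at h
  exact h

theorem y_deriv {a : ℝ} (hd : ∀ j, w j j = 0) {i j k l : Fin 4} (hij : i ≠ j)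
    (hkl : k ≠ l) (hc : ({i, j} : Finset (Fin 4))ᶜ = {k, l})
    (hu : ∀ m, w i m + w j m + w k m + w l m = 3 * a) (t : ℝ) :
    HasDerivAt (y p w i j) (x p w i t * (p + w i j) + x p w j t * (p + w j i) -
      (2 * p + 4 * a - (w k l + w l k - 2 * a)) * y p w i j t) t := by
  have h := law_deriv (fun _ : Fin 4 => p) w t {i, j}
  rw [hc, Finset.sum_pair hij, Finset.sum_pair hkl] at h
  have e1 : ({i, j} : Finset (Fin 4)).erase i = {j} := by
    rw [Finset.erase_insert (by simpa using hij)]
  have e2 : ({i, j} : Finset (Fin 4)).erase j = {i} := by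
    rw [Finset.pair_comm, Finset.erase_insert (by simpa using hij.symm)]
  rw [e1, e2] at h
  have r1 : rate (fun _ : Fin 4 => p) w {j} i = p + w j i := by simp [rate]
  have r2 : rate (fun _ : Fin 4 => p) w {i} j = p + w i j := by simp [rate]
  have r3 : rate (fun _ : Fin 4 => p) w {i, j} k = p + (w i k + w j k) := by
    unfold rate
    rw [Finset.sum_pair hij]
  have r4 : rate (fun _ : Fin 4 => p) w {i, j} l = p + (w i l + w j l) := by
    unfold rate
    rw [Finset.sum_pair hij]
  rw [r1, r2, r3, r4] at h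
  have hk := hu k
  have hl := hu l
  rw [hd] at hk hl
  have e : law (fun _ : Fin 4 => p) w t {j} * (p + w j i) + law (fun _ : Fin 4 => p) w t {i} *
      (p + w i j) - (p + (w i k + w j k) + (p + (w i l + w j l))) *
        law (fun _ : Fin 4 => p) w t {i, j} =
      x p w i t * (p + w i j) + x p w j t * (p + w j i) -
      (2 * p + 4 * a - (w k l + w l k - 2 * a)) * y p w i j t := by
    unfold x y
    linear_combination (-(law (fun _ : Fin 4 => p) w t {i, j})) * (hk + hl)
  rw [e] at h
  exact h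

theorem L_zero : L p w 0 = 1 := by
  unfold L
  rw [law_zero]
  simp

theorem x_zero (i : Fin 4) : x p w i 0 = 0 := by
  unfold x
  rw [law_zero]
  simp

theorem y_zero (i j : Fin 4) : y p w i j 0 = 0 := by
  unfold y
  rw [law_zero, if_neg]
  exact (Finset.insert_nonempty i {j}).ne_empty

/-- the functions `h_i` -/
noncomputable def hh (p q : ℝ) (w : Fin 4 → Fin 4 → ℝ) (i : Fin 4) : ℝ → ℝ :=
  cv (3 * p + q) (x p w i)

theorem hh_deriv (hd : ∀ j, w j j = 0) (i : Fin 4) (t : ℝ) :
    HasDerivAt (hh p q w i) (-(3 * p + q) * hh p q w i t + x p w i t) t :=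
  cv_deriv _ (continuous_iff_continuousAt.2 fun s => (x_deriv p hd i s).continuousAt) t

theorem hh_zero (i : Fin 4) : hh p q w i 0 = 0 := cv_zero _ _

variable {p}

theorem x_nonneg (hp : 0 ≤ p) (hw : IsHomogeneous q w) (i : Fin 4) {t : ℝ} (ht : 0 ≤ t) :
    0 ≤ x p w i t := law_nonneg _ _ (fun _ => hp) hw.nonneg _ ht

theorem hh_nonneg (hp : 0 ≤ p) (hw : IsHomogeneous q w) (i : Fin 4) {t : ℝ} (ht : 0 ≤ t) :
    0 ≤ hh p q w i t :=
  compare (c := 3 * p + q) (fun s => hh_deriv p hw.diag i s)
    (fun s hs => by have := x_nonneg hp hw i hs; linarith) (hh_zero p i).ge ht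

/-- `x_i + d_i h_i` does not depend on `i` -/
theorem X_eq (hw : IsHomogeneous q w) (i : Fin 4) {t : ℝ} (ht : 0 ≤ t) :
    x p w i t = cv (3 * p + q) (fun s => p * L p w s) t - (ou w i - q) * hh p q w i t := by
  have hL : Continuous fun s => p * L p w s :=
    continuous_const.mul (continuous_iff_continuousAt.2 fun s => (L_deriv p w s).continuousAt)
  have h := eq_zero_of_ode (u := fun s => x p w i s + (ou w i - q) * hh p q w i s -
    cv (3 * p + q) (fun s => p * L p w s) s) (c := 3 * p + q)
    (fun s => by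
      have h1 := ((x_deriv p hw.diag i s).add
        ((hh_deriv (q := q) p hw.diag i s).const_mul (ou w i - q))).sub (cv_deriv (3 * p + q) hL s)
      exact h1.congr_deriv (by ring))
    (by rw [x_zero, hh_zero, cv_zero]; ring) ht
  linarith

/-- `z_i` -/
theorem z_pos (hp : 0 < p) (hw : IsHomogeneous q w) (i : Fin 4) {t : ℝ} (ht : 0 ≤ t) :
    0 < p * L p w t + (p - ou w i) * x p w i t := by
  have h := compare (c := 3 * p + ou w i)
    (f := fun s => p * L p w s + (p - ou w i) * x p w i s - p * Real.exp (-(3 * p + ou w i) * s))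
    (f' := fun s => p * (-(4 * p) * L p w s) + (p - ou w i) *
      (p * L p w s - (3 * p + ou w i) * x p w i s) -
      p * (Real.exp (-(3 * p + ou w i) * s) * (-(3 * p + ou w i))))
    (fun s => by
      have h1 := ((hasDerivAt_id s).const_mul (-(3 * p + ou w i))).exp
      have h2 : HasDerivAt (fun s : ℝ => Real.exp (-(3 * p + ou w i) * s))
          (Real.exp (-(3 * p + ou w i) * s) * (-(3 * p + ou w i))) s := by simpa using h1
      exact (((L_deriv p w s).const_mul p).add ((x_deriv p hw.diag i s).const_mul _)).sub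
        (h2.const_mul p))
    (fun s _ => le_of_eq (by ring)) (by simp [L_zero, x_zero]) ht
  have h2 : 0 < p * Real.exp (-(3 * p + ou w i) * t) := by positivity
  linarith

theorem b_pos (hp : 0 < p) (hw : IsHomogeneous q w) (i : Fin 4) {t : ℝ} (ht : 0 < t) :
    0 < x p w i t + (p - q) * hh p q w i t :=
  compare_strict (f := fun s => x p w i s + (p - q) * hh p q w i s) (c := 3 * p + q)
    (fun s => (x_deriv p hw.diag i s).add ((hh_deriv (q := q) p hw.diag i s).const_mul (p - q)))
    (fun s hs => by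
      have h := z_pos hp hw i hs.le
      nlinarith)
    (by rw [x_zero, hh_zero]; simp) ht

theorem b_nonneg (hp : 0 < p) (hw : IsHomogeneous q w) (i : Fin 4) {t : ℝ} (ht : 0 ≤ t) :
    0 ≤ x p w i t + (p - q) * hh p q w i t := by
  rcases ht.eq_or_lt with h | h
  · rw [← h, x_zero, hh_zero]; simp
  · exact (b_pos hp hw i h).le

theorem f_nonneg {a : ℝ} (hp : 0 < p) (hw : IsHomogeneous (3 * a) w) {i j k l : Fin 4}
    (hij : i ≠ j) (hkl : k ≠ l) (hc : ({i, j} : Finset (Fin 4))ᶜ = {k, l})
    (hu : ∀ m, w i m + w j m + w k m + w l m = 3 * a) {t : ℝ} (ht : 0 ≤ t) :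
    0 ≤ 2 * y p w i j t - (p + w i j) * hh p (3 * a) w i t - (p + w j i) * hh p (3 * a) w j t := by
  refine compare (c := 2 * p + 4 * a - (w k l + w l k - 2 * a))
    (f := fun t => 2 * y p w i j t - (p + w i j) * hh p (3 * a) w i t -
      (p + w j i) * hh p (3 * a) w j t)
    (fun s => ((((y_deriv p hw.diag hij hkl hc hu s).const_mul 2).sub
      ((hh_deriv (q := 3 * a) p hw.diag i s).const_mul (p + w i j))).sub
      ((hh_deriv (q := 3 * a) p hw.diag j s).const_mul (p + w j i))))
    (fun s hs => ?_) ?_ ht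
  · have b1 := b_nonneg hp hw i hs
    have b2 := b_nonneg hp hw j hs
    have n1 := hh_nonneg hp.le hw i hs
    have n2 := hh_nonneg hp.le hw j hs
    have w1 := hw.nonneg i j
    have w2 := hw.nonneg j i
    have w3 := hw.nonneg k l
    have w4 := hw.nonneg l k
    have m1 : 0 ≤ (p + w i j) * (x p w i s + (p - 3 * a) * hh p (3 * a) w i s +
        (w k l + w l k) * hh p (3 * a) w i s) := by positivity
    have m2 : 0 ≤ (p + w j i) * (x p w j s + (p - 3 * a) * hh p (3 * a) w j s +
        (w k l + w l k) * hh p (3 * a) w j s) := by positivity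
    linarith
  · rw [y_zero, hh_zero, hh_zero]
    simp

end law

end Pool.Agent.H68.B4
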