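import Pool.Agent.H68.B4.Cum
import Pool.Agent.H68.B4.Ide
import Pool.Agent.H68.B4.Ode

set_option autoImplicit false

/-!
# Four nodes: the theorem
-/

namespace Pool.Agent.H68.B4

open Pool.Agent.H78.Bass

variable {p a : ℝ} {w : Fin 4 → Fin 4 → ℝ}

theorem col (hw : IsHomogeneous (3 * a) w) (j : Fin 4) : w 0 j + w 1 j + w 2 j + w 3 j = 3 * a := by
  have := hw.sum j
  rwa [Fin.sum_univ_four] at this

theorem ou_eq (i : Fin 4) : ou w i = w i 0 + w i 1 + w i 2 + w i 3 := by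
  unfold ou
  rw [Fin.sum_univ_four]

theorem DD_one (hw : IsHomogeneous (3 * a) w) (t : ℝ) : DD p a w 1 t =
    x p w 0 t * (3 * a - ou w 0) + x p w 1 t * (3 * a - ou w 1) + x p w 2 t * (3 * a - ou w 2) +
      x p w 3 t * (3 * a - ou w 3) := by
  have hd := hw.diag
  unfold DD
  rw [ex_four]
  simp only [c0, c1, c2, c3, c01, c02, c03, c12, c13, c23, c012, c013, c023, c123, c0123,
    Finset.compl_empty]
  have hu : Phi a w 1 Finset.univ = 0 := by
    unfold Phi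
    rw [exc_univ hw.sum (by push_cast; ring), mul_zero]
  have h3 : ∀ {i j k : Fin 4}, i ≠ j → i ≠ k → j ≠ k → Phi a w 1 {i, j, k} = exc a w {i, j, k} := by
    intro i j k hij hik hjk
    unfold Phi
    rw [Finset.card_eq_three.2 ⟨i, j, k, hij, hik, hjk, rfl⟩]
    simp
  have h2 : ∀ {i j : Fin 4}, i ≠ j → Phi a w 1 {i, j} = 0 := by
    intro i j hij
    unfold Phi
    rw [Finset.card_pair hij]
    simp
  have h1 : ∀ i : Fin 4, Phi a w 1 {i} = 0 := by
    intro i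
    unfold Phi
    simp
  have h0 : Phi a w 1 ∅ = 0 := by
    unfold Phi
    simp
  rw [hu, h3 (by decide) (by decide) (by decide), h3 (by decide) (by decide) (by decide),
    h3 (by decide) (by decide) (by decide), h3 (by decide) (by decide) (by decide),
    h2 (by decide), h2 (by decide), h2 (by decide), h2 (by decide), h2 (by decide),
    h2 (by decide), h1, h1, h1, h1, h0,
    exc_triple hd a (by decide) (by decide) (by decide),
    exc_triple hd a (by decide) (by decide) (by decide),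
    exc_triple hd a (by decide) (by decide) (by decide),
    exc_triple hd a (by decide) (by decide) (by decide)]
  have k0 := col hw 0
  have k1 := col hw 1
  have k2 := col hw 2
  have k3 := col hw 3
  rw [hd] at k0 k1 k2 k3
  simp only [ou_eq, hd]
  unfold x
  linear_combination (law (fun _ : Fin 4 => p) w t {0}) * (k1 + k2 + k3) +
    (law (fun _ : Fin 4 => p) w t {1}) * (k0 + k2 + k3) +
    (law (fun _ : Fin 4 => p) w t {2}) * (k0 + k1 + k3) +
    (law (fun _ : Fin 4 => p) w t {3}) * (k0 + k1 + k2)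

theorem DD_one_nonneg (hp : 0 < p) (hw : IsHomogeneous (3 * a) w) {t : ℝ} (ht : 0 ≤ t) :
    0 ≤ DD p a w 1 t := by
  have k0 := col hw 0
  have k1 := col hw 1
  have k2 := col hw 2
  have k3 := col hw 3
  have hs : ou w 0 + ou w 1 + ou w 2 + ou w 3 = 12 * a := by
    simp only [ou_eq]
    linarith
  have h0 := hh_nonneg hp.le hw 0 ht
  have h1 := hh_nonneg hp.le hw 1 ht
  have h2 := hh_nonneg hp.le hw 2 ht
  have h3 := hh_nonneg hp.le hw 3 ht
  rw [DD_one hw, X_eq hw 0 ht, X_eq hw 1 ht, X_eq hw 2 ht, X_eq hw 3 ht]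
  have e : (cv (3 * p + 3 * a) (fun s => p * L p w s) t -
        (ou w 0 - 3 * a) * hh p (3 * a) w 0 t) * (3 * a - ou w 0) +
      (cv (3 * p + 3 * a) (fun s => p * L p w s) t -
        (ou w 1 - 3 * a) * hh p (3 * a) w 1 t) * (3 * a - ou w 1) +
      (cv (3 * p + 3 * a) (fun s => p * L p w s) t -
        (ou w 2 - 3 * a) * hh p (3 * a) w 2 t) * (3 * a - ou w 2) +
      (cv (3 * p + 3 * a) (fun s => p * L p w s) t -
        (ou w 3 - 3 * a) * hh p (3 * a) w 3 t) * (3 * a - ou w 3) =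
      (ou w 0 - 3 * a) ^ 2 * hh p (3 * a) w 0 t + (ou w 1 - 3 * a) ^ 2 * hh p (3 * a) w 1 t +
      (ou w 2 - 3 * a) ^ 2 * hh p (3 * a) w 2 t + (ou w 3 - 3 * a) ^ 2 * hh p (3 * a) w 3 t := by
    linear_combination (-(cv (3 * p + 3 * a) (fun s => p * L p w s) t)) * hs
  rw [e]
  positivity

/-- the expectation of the source term -/
theorem ex_src (hw : IsHomogeneous (3 * a) w) (t : ℝ) :
    ex (fun _ => p) w (fun X => src a w 0 Xᶜ) t =
    (x p w 0 t * quad a w {1, 2, 3} + x p w 1 t * quad a w {0, 2, 3} +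
      x p w 2 t * quad a w {0, 1, 3} + x p w 3 t * quad a w {0, 1, 2}) +
    (y p w 0 1 t * quad a w {2, 3} + y p w 0 2 t * quad a w {1, 3} +
      y p w 0 3 t * quad a w {1, 2} + y p w 1 2 t * quad a w {0, 3} +
      y p w 1 3 t * quad a w {0, 2} + y p w 2 3 t * quad a w {0, 1}) := by
  rw [ex_four]
  simp only [c0, c1, c2, c3, c01, c02, c03, c12, c13, c23, c012, c013, c023, c123, c0123,
    Finset.compl_empty]
  have hS : ∀ Z : Finset (Fin 4), src a w 0 Z = if 2 ≤ Z.card then quad a w Z else 0 := by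
    intro Z
    unfold src
    simp
  have hu : src a w 0 Finset.univ = 0 := by
    rw [hS]
    have h0 : ∀ j, di a w Finset.univ j = 0 := by
      intro j
      unfold di
      rw [hw.sum j]
      simp
      ring
    unfold quad
    simp [h0]
  have h3 : ∀ {i j k : Fin 4}, i ≠ j → i ≠ k → j ≠ k → src a w 0 {i, j, k} = quad a w {i, j, k} := by
    intro i j k hij hik hjk
    rw [hS, Finset.card_eq_three.2 ⟨i, j, k, hij, hik, hjk, rfl⟩]
    simp
  have h2 : ∀ {i j : Fin 4}, i ≠ j → src a w 0 {i, j} = quad a w {i, j} := by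
    intro i j hij
    rw [hS, Finset.card_pair hij]
    simp
  have h1 : ∀ i : Fin 4, src a w 0 {i} = 0 := by
    intro i
    rw [hS]
    simp
  have h0 : src a w 0 ∅ = 0 := by
    rw [hS]
    simp
  rw [hu, h3 (by decide) (by decide) (by decide), h3 (by decide) (by decide) (by decide),
    h3 (by decide) (by decide) (by decide), h3 (by decide) (by decide) (by decide),
    h2 (by decide), h2 (by decide), h2 (by decide), h2 (by decide), h2 (by decide),
    h2 (by decide), h1, h1, h1, h1, h0]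
  unfold x y
  ring

/-- the sums of squares -/
noncomputable def E (a : ℝ) (w : Fin 4 → Fin 4 → ℝ) : Fin 4 → ℝ
  | 0 => (w 1 2 + w 2 1 - 2 * a) ^ 2 + (w 1 3 + w 3 1 - 2 * a) ^ 2 + (w 2 3 + w 3 2 - 2 * a) ^ 2
  | 1 => (w 0 2 + w 2 0 - 2 * a) ^ 2 + (w 0 3 + w 3 0 - 2 * a) ^ 2 + (w 2 3 + w 3 2 - 2 * a) ^ 2
  | 2 => (w 0 1 + w 1 0 - 2 * a) ^ 2 + (w 0 3 + w 3 0 - 2 * a) ^ 2 + (w 1 3 + w 3 1 - 2 * a) ^ 2
  | 3 => (w 0 1 + w 1 0 - 2 * a) ^ 2 + (w 0 2 + w 2 0 - 2 * a) ^ 2 + (w 1 2 + w 2 1 - 2 * a) ^ 2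

theorem E_nonneg (i : Fin 4) : 0 ≤ E a w i := by
  fin_cases i <;> simp only [E] <;> positivity

theorem w_le (hw : IsHomogeneous (3 * a) w) (i j : Fin 4) : w i j ≤ 3 * a := by
  rw [← hw.sum j]
  exact Finset.single_le_sum (fun k _ => hw.nonneg k j) (Finset.mem_univ i)

/-- the main inequality -/
theorem source_ge (hp : 0 < p) (hw : IsHomogeneous (3 * a) w) {t : ℝ} (ht : 0 ≤ t) :
    (E a w 0 * (x p w 0 t + (p - 3 * a) * hh p (3 * a) w 0 t) +
      E a w 1 * (x p w 1 t + (p - 3 * a) * hh p (3 * a) w 1 t) +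
      E a w 2 * (x p w 2 t + (p - 3 * a) * hh p (3 * a) w 2 t) +
      E a w 3 * (x p w 3 t + (p - 3 * a) * hh p (3 * a) w 3 t)) / 2 ≤
    2 * a * DD p a w 1 t + ex (fun _ => p) w (fun X => src a w 0 Xᶜ) t := by
  have hd := hw.diag
  have k0 := col hw 0
  have k1 := col hw 1
  have k2 := col hw 2
  have k3 := col hw 3
  rw [hd] at k0 k1 k2 k3
  have X0 := X_eq (p := p) hw 0 ht
  have X1 := X_eq (p := p) hw 1 ht
  have X2 := X_eq (p := p) hw 2 ht
  have X3 := X_eq (p := p) hw 3 ht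
  rw [ou_eq, hd] at X0 X1 X2 X3
  have I := identity a p (cv (3 * p + 3 * a) (fun s => p * L p w s) t)
    (hh p (3 * a) w 0 t) (hh p (3 * a) w 1 t) (hh p (3 * a) w 2 t) (hh p (3 * a) w 3 t)
    (x p w 0 t) (x p w 1 t) (x p w 2 t) (x p w 3 t)
    (y p w 0 1 t) (y p w 0 2 t) (y p w 0 3 t) (y p w 1 2 t) (y p w 1 3 t) (y p w 2 3 t)
    (w 0 1) (w 0 2) (w 0 3) (w 1 0) (w 1 2) (w 1 3) (w 2 0) (w 2 1) (w 2 3) (w 3 0) (w 3 1) (w 3 2)
    (by linarith) (by linarith) (by linarith) (by linarith)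
    (by rw [X0]; ring) (by rw [X1]; ring) (by rw [X2]; ring) (by rw [X3]; ring)
  have n0 := hh_nonneg hp.le hw 0 ht
  have n1 := hh_nonneg hp.le hw 1 ht
  have n2 := hh_nonneg hp.le hw 2 ht
  have n3 := hh_nonneg hp.le hw 3 ht
  have W := hw.nonneg
  have V := w_le hw
  have P0 := mul_nonneg n0 (Ps_nonneg (a := a) (d := w 0 1 + w 0 2 + w 0 3 - 3 * a)
    (q1 := w 0 1) (q2 := w 0 2) (q3 := w 0 3) (e1 := w 2 3 + w 3 2 - 2 * a)
    (e2 := w 1 3 + w 3 1 - 2 * a) (e3 := w 1 2 + w 2 1 - 2 * a)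
    (W _ _) (V _ _) (W _ _) (V _ _) (W _ _) (V _ _) (by ring) (by linarith))
  have P1 := mul_nonneg n1 (Ps_nonneg (a := a) (d := w 1 0 + w 1 2 + w 1 3 - 3 * a)
    (q1 := w 1 0) (q2 := w 1 2) (q3 := w 1 3) (e1 := w 2 3 + w 3 2 - 2 * a)
    (e2 := w 0 3 + w 3 0 - 2 * a) (e3 := w 0 2 + w 2 0 - 2 * a)
    (W _ _) (V _ _) (W _ _) (V _ _) (W _ _) (V _ _) (by ring) (by linarith))
  have P2 := mul_nonneg n2 (Ps_nonneg (a := a) (d := w 2 0 + w 2 1 + w 2 3 - 3 * a)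
    (q1 := w 2 0) (q2 := w 2 1) (q3 := w 2 3) (e1 := w 1 3 + w 3 1 - 2 * a)
    (e2 := w 0 3 + w 3 0 - 2 * a) (e3 := w 0 1 + w 1 0 - 2 * a)
    (W _ _) (V _ _) (W _ _) (V _ _) (W _ _) (V _ _) (by ring) (by linarith))
  have P3 := mul_nonneg n3 (Ps_nonneg (a := a) (d := w 3 0 + w 3 1 + w 3 2 - 3 * a)
    (q1 := w 3 0) (q2 := w 3 1) (q3 := w 3 2) (e1 := w 1 2 + w 2 1 - 2 * a)
    (e2 := w 0 2 + w 2 0 - 2 * a) (e3 := w 0 1 + w 1 0 - 2 * a)
    (W _ _) (V _ _) (W _ _) (V _ _) (W _ _) (V _ _) (by ring) (by linarith))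
  have c := col hw
  have F01 := mul_nonneg (sq_nonneg (w 2 3 + w 3 2 - 2 * a))
    (f_nonneg hp hw (i := 0) (j := 1) (k := 2) (l := 3) (by decide) (by decide) c01
      (fun m => by linarith [c m]) ht)
  have F02 := mul_nonneg (sq_nonneg (w 1 3 + w 3 1 - 2 * a))
    (f_nonneg hp hw (i := 0) (j := 2) (k := 1) (l := 3) (by decide) (by decide) c02
      (fun m => by linarith [c m]) ht)
  have F03 := mul_nonneg (sq_nonneg (w 1 2 + w 2 1 - 2 * a))
    (f_nonneg hp hw (i := 0) (j := 3) (k := 1) (l := 2) (by decide) (by decide) c03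
      (fun m => by linarith [c m]) ht)
  have F12 := mul_nonneg (sq_nonneg (w 0 3 + w 3 0 - 2 * a))
    (f_nonneg hp hw (i := 1) (j := 2) (k := 0) (l := 3) (by decide) (by decide) c12
      (fun m => by linarith [c m]) ht)
  have F13 := mul_nonneg (sq_nonneg (w 0 2 + w 2 0 - 2 * a))
    (f_nonneg hp hw (i := 1) (j := 3) (k := 0) (l := 2) (by decide) (by decide) c13
      (fun m => by linarith [c m]) ht)
  have F23 := mul_nonneg (sq_nonneg (w 0 1 + w 1 0 - 2 * a))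
    (f_nonneg hp hw (i := 2) (j := 3) (k := 0) (l := 1) (by decide) (by decide) c23
      (fun m => by linarith [c m]) ht)
  have hT : 2 * a * DD p a w 1 t + ex (fun _ => p) w (fun X => src a w 0 Xᶜ) t =
      2 * a * (x p w 0 t * (3 * a - (w 0 1 + w 0 2 + w 0 3)) +
        x p w 1 t * (3 * a - (w 1 0 + w 1 2 + w 1 3)) +
        x p w 2 t * (3 * a - (w 2 0 + w 2 1 + w 2 3)) +
        x p w 3 t * (3 * a - (w 3 0 + w 3 1 + w 3 2))) +
      (x p w 0 t * ((w 2 1 + w 3 1 - 2 * a) * (w 2 1 + w 3 1 + w 1 2 + w 1 3 - 4 * a) +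
        (w 1 2 + w 3 2 - 2 * a) * (w 1 2 + w 3 2 + w 2 1 + w 2 3 - 4 * a) +
        (w 1 3 + w 2 3 - 2 * a) * (w 1 3 + w 2 3 + w 3 1 + w 3 2 - 4 * a)) +
      x p w 1 t * ((w 2 0 + w 3 0 - 2 * a) * (w 2 0 + w 3 0 + w 0 2 + w 0 3 - 4 * a) +
        (w 0 2 + w 3 2 - 2 * a) * (w 0 2 + w 3 2 + w 2 0 + w 2 3 - 4 * a) +
        (w 0 3 + w 2 3 - 2 * a) * (w 0 3 + w 2 3 + w 3 0 + w 3 2 - 4 * a)) +
      x p w 2 t * ((w 1 0 + w 3 0 - 2 * a) * (w 1 0 + w 3 0 + w 0 1 + w 0 3 - 4 * a) +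
        (w 0 1 + w 3 1 - 2 * a) * (w 0 1 + w 3 1 + w 1 0 + w 1 3 - 4 * a) +
        (w 0 3 + w 1 3 - 2 * a) * (w 0 3 + w 1 3 + w 3 0 + w 3 1 - 4 * a)) +
      x p w 3 t * ((w 1 0 + w 2 0 - 2 * a) * (w 1 0 + w 2 0 + w 0 1 + w 0 2 - 4 * a) +
        (w 0 1 + w 2 1 - 2 * a) * (w 0 1 + w 2 1 + w 1 0 + w 1 2 - 4 * a) +
        (w 0 2 + w 1 2 - 2 * a) * (w 0 2 + w 1 2 + w 2 0 + w 2 1 - 4 * a))) +
      (y p w 0 1 t * (w 2 3 + w 3 2 - 2 * a) ^ 2 + y p w 0 2 t * (w 1 3 + w 3 1 - 2 * a) ^ 2 +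
      y p w 0 3 t * (w 1 2 + w 2 1 - 2 * a) ^ 2 + y p w 1 2 t * (w 0 3 + w 3 0 - 2 * a) ^ 2 +
      y p w 1 3 t * (w 0 2 + w 2 0 - 2 * a) ^ 2 + y p w 2 3 t * (w 0 1 + w 1 0 - 2 * a) ^ 2) := by
    rw [DD_one hw, ex_src hw, quad_triple hd a (by decide) (by decide) (by decide),
      quad_triple hd a (by decide) (by decide) (by decide),
      quad_triple hd a (by decide) (by decide) (by decide),
      quad_triple hd a (by decide) (by decide) (by decide),
      quad_pair hd a (by decide), quad_pair hd a (by decide), quad_pair hd a (by decide),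
      quad_pair hd a (by decide), quad_pair hd a (by decide), quad_pair hd a (by decide)]
    simp only [ou_eq, hd]
    ring
  rw [hT, I]
  simp only [E]
  linarith

theorem DD_zero_nonneg (hp : 0 < p) (hw : IsHomogeneous (3 * a) w) {t : ℝ}
    (ht : 0 ≤ t) : 0 ≤ DD p a w 0 t := by
  refine compare (c := ((0 : ℕ) + 2 : ℝ) * (p + 3 * a) - ((0 : ℕ) + 2 : ℝ) *
      (((0 : ℕ) : ℝ) + 1) * a)
      (fun s => DD_deriv hw.diag hw.sum p a 0 s) (fun s hs => ?_)
      (DD_zero hw.sum (by push_cast; ring) p 0).ge ht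
  have h := source_ge hp hw hs
  have b0 := mul_nonneg (E_nonneg (a := a) (w := w) 0) (b_nonneg hp hw 0 hs)
  have b1 := mul_nonneg (E_nonneg (a := a) (w := w) 1) (b_nonneg hp hw 1 hs)
  have b2 := mul_nonneg (E_nonneg (a := a) (w := w) 2) (b_nonneg hp hw 2 hs)
  have b3 := mul_nonneg (E_nonneg (a := a) (w := w) 3) (b_nonneg hp hw 3 hs)
  have e : (((0 : ℕ) : ℝ) + 2) * (((0 : ℕ) : ℝ) + 1) * a * DD p a w (0 + 1) s =
      2 * a * DD p a w 1 s := by
    push_cast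
    ring_nf
  rw [e]
  linarith

theorem DD_zero_pos (hp : 0 < p) (hw : IsHomogeneous (3 * a) w)
    (hne : ∃ k j, k ≠ j ∧ w k j + w j k ≠ 2 * a) {t : ℝ} (ht : 0 < t) : 0 < DD p a w 0 t := by
  refine compare_strict (c := ((0 : ℕ) + 2 : ℝ) * (p + 3 * a) - ((0 : ℕ) + 2 : ℝ) *
      (((0 : ℕ) : ℝ) + 1) * a)
      (fun s => DD_deriv hw.diag hw.sum p a 0 s) (fun s hs => ?_)
      (DD_zero hw.sum (by push_cast; ring) p 0).ge ht
  have h := source_ge hp hw hs.le
  have p0 := b_pos hp hw 0 hs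
  have p1 := b_pos hp hw 1 hs
  have p2 := b_pos hp hw 2 hs
  have p3 := b_pos hp hw 3 hs
  have b0 := mul_nonneg (E_nonneg (a := a) (w := w) 0) p0.le
  have b1 := mul_nonneg (E_nonneg (a := a) (w := w) 1) p1.le
  have b2 := mul_nonneg (E_nonneg (a := a) (w := w) 2) p2.le
  have b3 := mul_nonneg (E_nonneg (a := a) (w := w) 3) p3.le
  have e : (((0 : ℕ) : ℝ) + 2) * (((0 : ℕ) : ℝ) + 1) * a * DD p a w (0 + 1) s =
      2 * a * DD p a w 1 s := by
    push_cast
    ring_nf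
  rw [e]
  have hE : 0 < (E a w 0 * (x p w 0 s + (p - 3 * a) * hh p (3 * a) w 0 s) +
      E a w 1 * (x p w 1 s + (p - 3 * a) * hh p (3 * a) w 1 s) +
      E a w 2 * (x p w 2 s + (p - 3 * a) * hh p (3 * a) w 2 s) +
      E a w 3 * (x p w 3 s + (p - 3 * a) * hh p (3 * a) w 3 s)) := by
    by_contra hn
    have z0 : E a w 0 = 0 := by
      have : E a w 0 * (x p w 0 s + (p - 3 * a) * hh p (3 * a) w 0 s) = 0 := by linarith
      exact (mul_eq_zero.1 this).resolve_right p0.ne'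
    have z1 : E a w 1 = 0 := by
      have : E a w 1 * (x p w 1 s + (p - 3 * a) * hh p (3 * a) w 1 s) = 0 := by linarith
      exact (mul_eq_zero.1 this).resolve_right p1.ne'
    have z2 : E a w 2 = 0 := by
      have : E a w 2 * (x p w 2 s + (p - 3 * a) * hh p (3 * a) w 2 s) = 0 := by linarith
      exact (mul_eq_zero.1 this).resolve_right p2.ne'
    simp only [E] at z0 z1 z2
    have s12 : w 1 2 + w 2 1 - 2 * a = 0 := by
      have := sq_nonneg (w 1 2 + w 2 1 - 2 * a)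
      have := sq_nonneg (w 1 3 + w 3 1 - 2 * a)
      have := sq_nonneg (w 2 3 + w 3 2 - 2 * a)
      exact pow_eq_zero_iff (two_ne_zero) |>.1 (by linarith)
    have s13 : w 1 3 + w 3 1 - 2 * a = 0 := by
      have := sq_nonneg (w 1 2 + w 2 1 - 2 * a)
      have := sq_nonneg (w 1 3 + w 3 1 - 2 * a)
      have := sq_nonneg (w 2 3 + w 3 2 - 2 * a)
      exact pow_eq_zero_iff (two_ne_zero) |>.1 (by linarith)
    have s23 : w 2 3 + w 3 2 - 2 * a = 0 := by
      have := sq_nonneg (w 1 2 + w 2 1 - 2 * a)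
      have := sq_nonneg (w 1 3 + w 3 1 - 2 * a)
      have := sq_nonneg (w 2 3 + w 3 2 - 2 * a)
      exact pow_eq_zero_iff (two_ne_zero) |>.1 (by linarith)
    have s02 : w 0 2 + w 2 0 - 2 * a = 0 := by
      have := sq_nonneg (w 0 2 + w 2 0 - 2 * a)
      have := sq_nonneg (w 0 3 + w 3 0 - 2 * a)
      have := sq_nonneg (w 2 3 + w 3 2 - 2 * a)
      exact pow_eq_zero_iff (two_ne_zero) |>.1 (by linarith)
    have s03 : w 0 3 + w 3 0 - 2 * a = 0 := by
      have := sq_nonneg (w 0 2 + w 2 0 - 2 * a)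
      have := sq_nonneg (w 0 3 + w 3 0 - 2 * a)
      have := sq_nonneg (w 2 3 + w 3 2 - 2 * a)
      exact pow_eq_zero_iff (two_ne_zero) |>.1 (by linarith)
    have s01 : w 0 1 + w 1 0 - 2 * a = 0 := by
      have := sq_nonneg (w 0 1 + w 1 0 - 2 * a)
      have := sq_nonneg (w 0 3 + w 3 0 - 2 * a)
      have := sq_nonneg (w 1 3 + w 3 1 - 2 * a)
      exact pow_eq_zero_iff (two_ne_zero) |>.1 (by linarith)
    obtain ⟨k, j, hkj, hk⟩ := hne
    apply hk
    fin_cases k <;> fin_cases j <;> simp at hkj ⊢ <;> linarith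
  linarith

theorem main_le {q : ℝ} (hp : 0 < p) (hq : 0 < q) (hw : IsHomogeneous q w) {t : ℝ} (ht : 0 ≤ t) :
    level (fun _ => p) w t ≤ level (fun _ : Fin 4 => p) (completeW q) t := by
  have hw' : IsHomogeneous (3 * (q / 3)) w := by
    rwa [show 3 * (q / 3) = q by ring]
  exact level_le_four hq hw (fun t ht => DD_zero_nonneg hp hw' ht)
    (fun t ht => DD_one_nonneg hp hw' ht) ht

theorem main_lt {q : ℝ} (hp : 0 < p) (hq : 0 < q) (hw : IsHomogeneous q w)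
    (hne : ∃ k j, k ≠ j ∧ w k j + w j k ≠ 2 * (q / 3)) {t : ℝ} (ht : 0 < t) :
    level (fun _ => p) w t < level (fun _ : Fin 4 => p) (completeW q) t := by
  have hw' : IsHomogeneous (3 * (q / 3)) w := by
    rwa [show 3 * (q / 3) = q by ring]
  exact level_lt_four hq hw (fun t ht => DD_zero_nonneg hp hw' ht)
    (fun t ht => DD_one_nonneg hp hw' ht) (fun t ht => DD_zero_pos hp hw' hne ht) ht

theorem main_eq {q : ℝ} (hq : 0 < q) (hw : IsHomogeneous q w)
    (h : ∀ k j, k ≠ j → w k j + w j k = 2 * (q / 3)) {t : ℝ} (ht : 0 ≤ t) :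
    level (fun _ => p) w t = level (fun _ : Fin 4 => p) (completeW q) t := by
  refine level_balanced (by omega) hq hw ?_ ht
  have ha : q / (((4 : ℕ) : ℝ) - 1) = q / 3 := by norm_num
  rw [ha]
  exact balanced_exc hw.diag h

end Pool.Agent.H68.B4
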